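import Mathlib
import Pool.Agent.R494.SPL4
import Pool.Agent.N233.GM.Law2
import Pool.Agent.N719.SP.MainU

/-! Sums `x² + y² + z² + 4w²` with `2 ^ x + 2 ^ y + 2 ^ z + 1` chosen, growing sieve (the proofs follow
Pool.Agent.R494.SPL4 and Pool.Agent.N233.GM.Law2). -/

set_option autoImplicit false
set_option linter.unusedSectionVars false

namespace Pool.Agent.Run7.h899.GS

open Filter Asymptotics MeasureTheory Finset
open Pool.Agent.R494.SPL Pool.Agent.R528.RM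
open Pool.Agent.N233.GM (Rough W rho rho1 W_ge rho1_bounds rho1_eq)
open scoped Topology

/-- the densities are bounded -/
lemma rho_bdd (s : ℕ → ℕ) (hV : ∀ᶠ n : ℕ in atTop, W (s n) / Real.log n < 1) :
    ∃ C : ℝ, 1 ≤ C ∧ ∀ m : ℕ, 0 ≤ Real.log (m : ℝ) → 0 ≤ rho s m ∧ rho s m ≤ C := by
  obtain ⟨m1, hm1⟩ := eventually_atTop.1 hV
  refine ⟨1 + ∑ m ∈ range m1, |W (s m) / Real.log m|, ?_, ?_⟩
  · have : 0 ≤ ∑ m ∈ range m1, |W (s m) / Real.log m| := sum_nonneg fun _ _ => abs_nonneg _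
    linarith
  · intro m hm
    have h0 : 0 ≤ ∑ m ∈ range m1, |W (s m) / Real.log m| := sum_nonneg fun _ _ => abs_nonneg _
    have hW : 0 ≤ W (s m) := zero_le_one.trans (W_ge _)
    unfold rho
    split_ifs
    · refine ⟨div_nonneg hW hm, ?_⟩
      rcases Nat.lt_or_ge m m1 with h | h
      · have h1 : |W (s m) / Real.log m| ≤ ∑ m ∈ range m1, |W (s m) / Real.log m| :=
          single_le_sum (f := fun m : ℕ => |W (s m) / Real.log m|) (fun _ _ => abs_nonneg _)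
            (mem_range.2 h)
        have := le_abs_self (W (s m) / Real.log m)
        linarith
      · have := hm1 m h
        linarith
    · exact ⟨le_rfl, by linarith⟩

section

variable {Ω : Type} {m0 : MeasurableSpace Ω} {μ : Measure Ω} [IsProbabilityMeasure μ]
  {ℱ : Filtration ℕ m0} {A : ℕ → Set Ω}

/-- the law for all `n` -/
theorem law3g (hA : ∀ n, MeasurableSet[ℱ n] (A n)) (s : ℕ → ℕ)
    (hV : ∀ᶠ n : ℕ in atTop, W (s n) / Real.log n < 1)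
    (hprof : ∀ᵐ ω ∂μ, ∀ ε : ℝ, 0 < ε → ∀ᶠ n : ℕ in atTop,
      |dens μ ℱ A n ω - rho1 s (n + 1)| ≤ ε * rho1 s (n + 1)) :
    ∀ᵐ ω ∂μ, ∀ η : ℝ, 0 < η → ∃ K : ℝ, ∀ᶠ n : ℕ in atTop,
      |∑ v ∈ quad3 n, In A (val3 v) ω - ∑ v ∈ quad3 n, rho s (val3 v)| ≤
        η * ∑ v ∈ quad3 n, rho s (val3 v) + K * Real.log n ^ 3 := by
  classical
  have h := weighted_law (μ := μ) (ℱ := ℱ) (A := A) hA (fun n => (rho1_bounds s n).1) hprof
    (fun n => (quad3 n).filter (fun v => ¬ val3 v < n)) val3 (fun _ => 12) 1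
    (by
      filter_upwards [eventually_ge_atTop 12] with x hx
      rw [pow_one]
      exact hx)
    (Eventually.of_forall fun n P => (card_le_card (filter_subset_filter _ (filter_subset _ _))).trans (fibre3 n P))
    id tendsto_id
    (Eventually.of_forall fun n v hv => not_lt.1 (mem_filter.1 hv).2)
  obtain ⟨c, hc1, hcb⟩ := rho_bdd s hV
  filter_upwards [h] with ω hω η hη
  obtain ⟨K, hK0, hK⟩ := hω η hη
  obtain ⟨m1, hm1⟩ := eventually_atTop.1 hV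
  refine ⟨12 * K + (1 + c) * 27, ?_⟩
  filter_upwards [hK, log_cube, eventually_ge_atTop (max m1 1)] with n h1 h2 h4
  have h4' : 1 ≤ n := (le_max_right _ _).trans h4
  obtain ⟨l1, l2⟩ := h2
  have hbig : ∑ v ∈ (quad3 n).filter (fun v => ¬ val3 v < n), rho1 s (val3 v) =
      ∑ v ∈ (quad3 n).filter (fun v => ¬ val3 v < n), rho s (val3 v) := by
    refine sum_congr rfl fun v hv => ?_
    obtain ⟨g1, g2⟩ := mem_filter.1 hv
    rw [not_lt] at g2
    exact rho1_eq s _ (hm1 _ ((le_max_left _ _).trans (h4.trans g2)))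
  rw [hbig] at h1
  have hsplit : ∀ f : ℕ × ℕ × ℕ × ℕ → ℝ, ∑ v ∈ quad3 n, f v =
      ∑ v ∈ (quad3 n).filter (fun v => val3 v < n), f v + ∑ v ∈ (quad3 n).filter (fun v => ¬ val3 v < n), f v :=
    fun f => (sum_filter_add_sum_filter_not _ _ _).symm
  rw [hsplit, hsplit (fun v => rho s (val3 v))]
  have hcard : (((quad3 n).filter (fun v => val3 v < n)).card : ℝ) ≤ 27 * Real.log n ^ 3 :=
    le_trans (by exact_mod_cast small3 n) l1
  have hrb : ∀ v ∈ quad3 n, 0 ≤ rho s (val3 v) ∧ rho s (val3 v) ≤ c := fun v hv =>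
    hcb _ (zero_le_one.trans (log_val3 h4' hv).1)
  have s1 : 0 ≤ ∑ v ∈ (quad3 n).filter (fun v => val3 v < n), In A (val3 v) ω :=
    sum_nonneg fun v _ => In_nonneg _ _
  have s2 : ∑ v ∈ (quad3 n).filter (fun v => val3 v < n), In A (val3 v) ω ≤ 27 * Real.log n ^ 3 := by
    refine le_trans ?_ hcard
    refine (sum_le_card_nsmul _ _ 1 fun v _ => In_le _ _).trans ?_
    simp
  have s3 : 0 ≤ ∑ v ∈ (quad3 n).filter (fun v => val3 v < n), rho s (val3 v) :=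
    sum_nonneg fun v hv => (hrb v (mem_filter.1 hv).1).1
  have s4 : ∑ v ∈ (quad3 n).filter (fun v => val3 v < n), rho s (val3 v) ≤ c * (27 * Real.log n ^ 3) := by
    refine (sum_le_card_nsmul _ _ c fun v hv => (hrb v (mem_filter.1 hv).1).2).trans ?_
    rw [nsmul_eq_mul, mul_comm]
    exact mul_le_mul_of_nonneg_left hcard (by linarith)
  have s5 : K * ((12 : ℕ) * Real.log n) ≤ 12 * K * Real.log n ^ 3 := by
    push_cast
    nlinarith
  set I1 := ∑ v ∈ (quad3 n).filter (fun v => val3 v < n), In A (val3 v) ω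
  set I2 := ∑ v ∈ (quad3 n).filter (fun v => ¬ val3 v < n), In A (val3 v) ω
  set E1 := ∑ v ∈ (quad3 n).filter (fun v => val3 v < n), rho s (val3 v)
  set E2 := ∑ v ∈ (quad3 n).filter (fun v => ¬ val3 v < n), rho s (val3 v)
  have h5 := abs_le.1 h1
  have h6 : 0 ≤ η * E1 := by positivity
  have h7 : (0 : ℝ) ≤ Real.log n ^ 3 := by
    have : 0 ≤ Real.log (n : ℝ) := Real.log_natCast_nonneg n
    positivity
  rw [abs_le]
  constructor
  · nlinarith [h5.1]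
  · nlinarith [h5.2]

end

/-- quadruples with a large value, rough in the range of the sieve, give a large expected number -/
lemma low_of_many (ε : ℝ) (hε : 0 < ε) (hε1 : ε ≤ 1) (s : ℕ → ℕ) (P : ℕ → Prop)
    (hV : ∀ᶠ n : ℕ in atTop, W (s n) / Real.log n < 1)
    (hmany : ∀ᶠ n : ℕ in atTop, P n → ∃ T ⊆ quad3 n, (n : ℝ) ^ (1 - ε / 2) ≤ (T.card : ℝ) ∧
      ∀ v ∈ T, n ≤ val3 v → Rough s (val3 v)) :
    ∀ᶠ n : ℕ in atTop, P n → 2 * (n : ℝ) ^ (1 / 2 - ε) ≤ ∑ v ∈ quad3 n, rho s (val3 v) := by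
  classical
  obtain ⟨c, hc1, hcb⟩ := rho_bdd s hV
  have e2 : ∀ᶠ n : ℕ in atTop, 16 ≤ (n : ℝ) ^ (ε / 2) :=
    ((tendsto_rpow_atTop (by positivity)).comp tendsto_natCast_atTop_atTop).eventually_ge_atTop _
  have e3 := (isLittleO_log_rpow_rpow_atTop (3 : ℝ) (show (0 : ℝ) < 1 / 2 by norm_num)).bound
    (show (0 : ℝ) < 1 / 54 by norm_num)
  filter_upwards [hmany, e2, tendsto_natCast_atTop_atTop.eventually e3, log_cube,
    eventually_ge_atTop 1] with n h1 h2 h3 h4 h5 hP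
  obtain ⟨T, hsub, hT1, hT2⟩ := h1 hP
  have hn1 : (1 : ℝ) ≤ n := by exact_mod_cast h5
  have hn0 : (0 : ℝ) < n := by linarith
  have hl : 0 ≤ Real.log (n : ℝ) := Real.log_nonneg hn1
  rw [Real.norm_eq_abs, Real.norm_eq_abs, abs_of_nonneg (Real.rpow_nonneg hl _),
    abs_of_nonneg (Real.rpow_nonneg hn0.le _)] at h3
  have e5 : Real.log n ^ (3 : ℝ) = Real.log n ^ (3 : ℕ) := by
    rw [← Real.rpow_natCast]; norm_num
  rw [e5] at h3
  have hnh : 1 ≤ (n : ℝ) ^ (1 / 2 : ℝ) := Real.one_le_rpow hn1 (by norm_num)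
  have hhalf : (n : ℝ) ^ (1 / 2 : ℝ) ≤ (n : ℝ) ^ (1 - ε / 2) :=
    Real.rpow_le_rpow_of_exponent_le hn1 (by linarith)
  set T' := T.filter (fun v => n ≤ val3 v) with hT'
  have hcard : (n : ℝ) ^ (1 - ε / 2) / 2 ≤ (T'.card : ℝ) := by
    have g1 : (T.filter (fun v => ¬ n ≤ val3 v)).card ≤ (Nat.log 2 n + 1) ^ 3 := by
      refine le_trans (card_le_card ?_) (small3 n)
      intro v hv
      rw [mem_filter] at hv ⊢
      exact ⟨hsub hv.1, not_le.1 hv.2⟩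
    have g2 : T'.card + (T.filter (fun v => ¬ n ≤ val3 v)).card = T.card :=
      card_filter_add_card_filter_not _
    have g3 : ((T.filter (fun v => ¬ n ≤ val3 v)).card : ℝ) ≤ 27 * Real.log n ^ 3 :=
      le_trans (by exact_mod_cast g1) h4.1
    have g4 : (T'.card : ℝ) + ((T.filter (fun v => ¬ n ≤ val3 v)).card : ℝ) = T.card := by
      exact_mod_cast g2
    linarith
  have h6 : ∀ v ∈ T', 1 / (4 * (n : ℝ) ^ (1 / 2 : ℝ)) ≤ rho s (val3 v) := by
    intro v hv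
    obtain ⟨hv1, hv2⟩ := mem_filter.1 hv
    obtain ⟨g1, g2⟩ := log_val3 h5 (hsub hv1)
    unfold rho
    rw [if_pos (hT2 v hv1 hv2)]
    have := W_ge (s (val3 v))
    gcongr
  calc 2 * (n : ℝ) ^ (1 / 2 - ε) = 16 * ((n : ℝ) ^ (1 / 2 - ε) / 8) := by ring
    _ ≤ (n : ℝ) ^ (ε / 2) * ((n : ℝ) ^ (1 / 2 - ε) / 8) := by gcongr
    _ = (n : ℝ) ^ (1 - ε / 2) / 2 * (1 / (4 * (n : ℝ) ^ (1 / 2 : ℝ))) := by
        have e1 : (n : ℝ) ^ (1 - ε / 2) = (n : ℝ) ^ (ε / 2) * (n : ℝ) ^ (1 / 2 - ε) * (n : ℝ) ^ (1 / 2 : ℝ) := by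
          rw [← Real.rpow_add hn0, ← Real.rpow_add hn0]
          congr 1
          ring
        rw [e1]
        field_simp
        norm_num
    _ ≤ T'.card * (1 / (4 * (n : ℝ) ^ (1 / 2 : ℝ))) := by gcongr
    _ = ∑ _v ∈ T', 1 / (4 * (n : ℝ) ^ (1 / 2 : ℝ)) := by rw [sum_const, nsmul_eq_mul]
    _ ≤ ∑ v ∈ T', rho s (val3 v) := sum_le_sum h6
    _ ≤ _ := sum_le_sum_of_subset_of_nonneg ((filter_subset _ _).trans hsub) fun v hv _ =>
        (hcb _ (zero_le_one.trans (log_val3 h5 hv).1)).1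

/-- the iterated logarithm of a value -/
lemma loglog_val3 {n : ℕ} (hn : 16 ≤ n) {v : ℕ × ℕ × ℕ × ℕ} (hv : v ∈ quad3 n) :
    0 ≤ Real.log (Real.log (val3 v : ℝ)) ∧ Real.log (Real.log (val3 v : ℝ)) ≤ Real.log n := by
  have hn16 : (16 : ℝ) ≤ n := by exact_mod_cast hn
  have hn0 : (0 : ℝ) < n := by linarith
  obtain ⟨h1, h2⟩ := log_val3 (by omega) hv
  refine ⟨Real.log_nonneg h1, ?_⟩
  refine (Real.log_le_log (by linarith) h2).trans ?_
  rw [Real.log_mul (by norm_num) (Real.rpow_pos_of_pos hn0 _).ne', Real.log_rpow hn0]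
  have h5 : Real.log 16 ≤ Real.log n := Real.log_le_log (by norm_num) hn16
  have h6 : Real.log 16 = 2 * Real.log 4 := by
    rw [show (16 : ℝ) = 4 ^ 2 by norm_num, Real.log_pow]
    norm_num
  linarith

/-- the exceptional primes of the theorem -/
def Exceptional (n q : ℕ) : Prop :=
  q ≠ 2 ∧
  ((∃ l : ℕ, l.Prime ∧ 5 ≤ l ∧ l ^ 2 ∣ orderOf (2 : ZMod q) ∧
    ((n % 4 = 1 ∧ l % 4 = 3 ∧ (l : ℤ) ∣ 9 * n - 8) ∨ (n % 4 = 3 ∧ l % 3 = 2 ∧ (l : ℤ) ∣ 3 * n - 8))) ∨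
  ((n % 4 = 1 ∧ n % 7 = 4 ∧ q = 113) ∨ (n % 4 = 3 ∧ n % 5 = 1 ∧ q = 41)))

/-- no exceptional prime is in the range of the sieve at the values which belong to `n` -/
def Reg (s : ℕ → ℕ) (n : ℕ) : Prop :=
  ∀ v ∈ quad3 n, n ≤ val3 v → ∀ q : ℕ, q.Prime → q ≤ s (val3 v) → ¬ Exceptional n q

/-- many rough quadruples, sieve up to `c (log log m) ^ 2` -/
lemma manyB (ε : ℝ) (hε : 0 < ε) : ∃ c : ℝ, 0 < c ∧ ∀ s : ℕ → ℕ,
    (∀ᶠ n : ℕ in atTop, (s n : ℝ) ≤ c * Real.log (Real.log n) ^ 2) →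
    ∀ᶠ n : ℕ in atTop, (Odd n ∧ Reg s n ∧
      ∀ l : ℕ, l.Prime → c * Real.log n < l → (l : ℝ) ≤ (Real.log n) ^ 2 → ¬ l ^ 2 ∣ n) →
      ∃ T ⊆ quad3 n, (n : ℝ) ^ (1 - ε) ≤ (T.card : ℝ) ∧
      ∀ v ∈ T, n ≤ val3 v → Rough s (val3 v) := by
  obtain ⟨c, hc, n0, hT⟩ := Pool.Agent.N719.SP.mainBU ε hε
  refine ⟨c, hc, fun s hs => ?_⟩
  obtain ⟨m1, hm1⟩ := eventually_atTop.1 hs
  filter_upwards [eventually_ge_atTop n0, eventually_ge_atTop 16, eventually_ge_atTop m1] with n h1 h2 h3 hn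
  obtain ⟨hodd, hreg, hsq⟩ := hn
  obtain ⟨T, hT1, hT2⟩ := hT n h1 hodd hsq
  have hsub : T ⊆ quad3 n := by
    rintro ⟨x, y, a, b⟩ hX
    exact mem_quad3.2 (hT2 x y a b hX).1
  refine ⟨T, hsub, hT1, ?_⟩
  rintro ⟨x, y, a, b⟩ hX hbig q hq hqz hqd
  obtain ⟨l1, l2⟩ := loglog_val3 h2 (hsub hX)
  have g5 := hm1 (val3 (x, y, a, b)) (h3.trans hbig)
  have h9 : (q : ℝ) ≤ s (val3 (x, y, a, b)) := by exact_mod_cast hqz
  have h8 : c * Real.log (Real.log (val3 (x, y, a, b) : ℝ)) ^ 2 ≤ c * Real.log n ^ 2 := by gcongr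
  have g1 := (hT2 x y a b hX).2 q hq hqd (by linarith)
  exact hreg _ (hsub hX) hbig q hq hqz ⟨g1.1, Pool.Agent.N719.SP.exc_finalU n q g1.2⟩

/-- many rough quadruples, sieve up to `c log log m` -/
lemma manyA (ε : ℝ) (hε : 0 < ε) : ∃ c : ℝ, 0 < c ∧ ∀ s : ℕ → ℕ,
    (∀ᶠ n : ℕ in atTop, (s n : ℝ) ≤ c * Real.log (Real.log n)) →
    ∀ᶠ n : ℕ in atTop, (Odd n ∧ Reg s n) →
      ∃ T ⊆ quad3 n, (n : ℝ) ^ (1 - ε) ≤ (T.card : ℝ) ∧
      ∀ v ∈ T, n ≤ val3 v → Rough s (val3 v) := by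
  obtain ⟨c, hc, n0, hT⟩ := Pool.Agent.N719.SP.mainAU ε hε
  refine ⟨c, hc, fun s hs => ?_⟩
  obtain ⟨m1, hm1⟩ := eventually_atTop.1 hs
  have hll : Tendsto (fun n : ℕ => Real.log (Real.log (Real.log (n : ℝ)))) atTop atTop :=
    Real.tendsto_log_atTop.comp (Real.tendsto_log_atTop.comp
      (Real.tendsto_log_atTop.comp tendsto_natCast_atTop_atTop))
  have hl2 : Tendsto (fun n : ℕ => Real.log (Real.log (n : ℝ))) atTop atTop :=
    Real.tendsto_log_atTop.comp (Real.tendsto_log_atTop.comp tendsto_natCast_atTop_atTop)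
  filter_upwards [eventually_ge_atTop n0, eventually_ge_atTop 16, eventually_ge_atTop m1,
    hll.eventually_ge_atTop 1, hl2.eventually_ge_atTop 1] with n h1 h2 h3 k1 k2 hn
  obtain ⟨hodd, hreg⟩ := hn
  obtain ⟨T, hT1, hT2⟩ := hT n h1 hodd
  have hsub : T ⊆ quad3 n := by
    rintro ⟨x, y, a, b⟩ hX
    exact mem_quad3.2 (hT2 x y a b hX).1
  refine ⟨T, hsub, hT1, ?_⟩
  rintro ⟨x, y, a, b⟩ hX hbig q hq hqz hqd
  obtain ⟨l1, l2⟩ := loglog_val3 h2 (hsub hX)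
  have g5 := hm1 (val3 (x, y, a, b)) (h3.trans hbig)
  have h9 : (q : ℝ) ≤ s (val3 (x, y, a, b)) := by exact_mod_cast hqz
  have h8 : c * Real.log (Real.log (val3 (x, y, a, b) : ℝ)) ≤ c * Real.log n := by gcongr
  have hn16 : (16 : ℝ) ≤ n := by exact_mod_cast h2
  have hln : 0 ≤ Real.log (n : ℝ) := Real.log_nonneg (by linarith)
  have h10 : Real.log n ≤ Real.log n * Real.log (Real.log n) / Real.log (Real.log (Real.log n)) := by
    rw [le_div_iff₀ (by linarith)]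
    apply mul_le_mul_of_nonneg_left _ hln
    have := Real.log_le_sub_one_of_pos (show 0 < Real.log (Real.log (n : ℝ)) by linarith)
    linarith
  have h11 : c * Real.log n ≤ c * (Real.log n * Real.log (Real.log n) / Real.log (Real.log (Real.log n))) :=
    mul_le_mul_of_nonneg_left h10 hc.le
  have g1 := (hT2 x y a b hX).2 q hq hqd (by linarith)
  exact hreg _ (hsub hX) hbig q hq hqz ⟨g1.1, Pool.Agent.N719.SP.exc_finalU n q g1.2⟩

/-- the expected number is large -/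
theorem low_all (ε : ℝ) (hε : 0 < ε) (hε1 : ε ≤ 1) : ∃ c : ℝ, 0 < c ∧ ∀ s : ℕ → ℕ,
    (∀ᶠ n : ℕ in atTop, (s n : ℝ) ≤ c * Real.log (Real.log n) ^ 2) →
    ∀ᶠ n : ℕ in atTop, (Odd n ∧ Reg s n ∧
      ((∀ l : ℕ, l.Prime → c * Real.log n < l → (l : ℝ) ≤ (Real.log n) ^ 2 → ¬ l ^ 2 ∣ n) ∨
        ∀ᶠ m : ℕ in atTop, (s m : ℝ) ≤ c * Real.log (Real.log m))) →
      2 * (n : ℝ) ^ (1 / 2 - ε) ≤ ∑ v ∈ quad3 n, rho s (val3 v) := by
  obtain ⟨c₁, hc₁, h₁⟩ := manyA (ε / 2) (by positivity)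
  obtain ⟨c₂, hc₂, h₂⟩ := manyB (ε / 2) (by positivity)
  refine ⟨min c₁ c₂, lt_min hc₁ hc₂, fun s hs => ?_⟩
  have hV := Pool.Agent.N233.GM.short _ s hs
  have hl0 : ∀ᶠ n : ℕ in atTop, 0 ≤ Real.log (Real.log (n : ℝ)) :=
    (Real.tendsto_log_atTop.comp (Real.tendsto_log_atTop.comp tendsto_natCast_atTop_atTop)).eventually_ge_atTop 0
  have hs2 : ∀ᶠ n : ℕ in atTop, (s n : ℝ) ≤ c₂ * Real.log (Real.log n) ^ 2 := by
    filter_upwards [hs] with n h
    exact h.trans (mul_le_mul_of_nonneg_right (min_le_right _ _) (by positivity))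
  have hB := low_of_many ε hε hε1 s _ hV (h₂ s hs2)
  by_cases hslow : ∀ᶠ m : ℕ in atTop, (s m : ℝ) ≤ min c₁ c₂ * Real.log (Real.log m)
  · have hs1 : ∀ᶠ n : ℕ in atTop, (s n : ℝ) ≤ c₁ * Real.log (Real.log n) := by
      filter_upwards [hslow, hl0] with n h h0
      exact h.trans (mul_le_mul_of_nonneg_right (min_le_left _ _) h0)
    have hA := low_of_many ε hε hε1 s _ hV (h₁ s hs1)
    filter_upwards [hA] with n h hn
    exact h ⟨hn.1, hn.2.1⟩
  · filter_upwards [hB, eventually_ge_atTop 1] with n h h1 hn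
    refine h ⟨hn.1, hn.2.1, ?_⟩
    rcases hn.2.2 with h3 | h3
    · intro l hl hl1 hl2
      apply h3 l hl _ hl2
      refine lt_of_le_of_lt ?_ hl1
      apply mul_le_mul_of_nonneg_right (min_le_right _ _)
      exact Real.log_natCast_nonneg n
    · exact absurd h3 hslow

/-- the sieve by the primes up to `40` has no exceptional primes -/
lemma exc_ge (n q : ℕ) (hq : q.Prime) (h : Exceptional n q) : 41 ≤ q := by
  obtain ⟨h2, h⟩ := h
  rcases h with ⟨l, hl, hl5, hlo, -⟩ | ⟨-, -, h⟩ | ⟨-, -, h⟩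
  · have : Fact q.Prime := ⟨hq⟩
    have h20 : (2 : ZMod q) ≠ 0 := by
      intro h0
      have h3 : ((2 : ℕ) : ZMod q) = 0 := by exact_mod_cast h0
      rw [ZMod.natCast_eq_zero_iff] at h3
      exact h2 ((Nat.prime_dvd_prime_iff_eq hq Nat.prime_two).1 h3)
    have h1 := ZMod.orderOf_dvd_card_sub_one h20
    have h4 := hlo.trans h1
    have hq1 := hq.two_le
    have h5 := Nat.le_of_dvd (by omega) h4
    have h6 : 5 ^ 2 ≤ l ^ 2 := Nat.pow_le_pow_left hl5 2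
    by_contra hc
    have h5' : l ^ 2 ≤ 39 := by omega
    have h7 : l < 7 := by
      by_contra h
      have h0 : 7 ^ 2 ≤ l ^ 2 := Nat.pow_le_pow_left (by omega) 2
      omega
    have h8 : l = 5 ∨ l = 6 := by omega
    rcases h8 with rfl | rfl
    · have h9 : q = 26 := by omega
      subst h9
      revert hq
      decide
    · exact absurd hl (by decide)
  · omega
  · omega

end Pool.Agent.Run7.h899.GS
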